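import Pool.Agent.Y103.Spec
import Pool.Agent.W552.RatBasis

/-!
# Rings of cycle classes with an antilinear Hodge-Riemann involution
-/

open ComplexConjugate Module Submodule

namespace Pool.Agent.Y103

open Pool.Agent.W552 (RatSub exists_ratBasis)

variable {A : Type*} [Ring A] [Algebra ℂ A]

/-- The complex span of `N j`. -/
def DD (N : ℕ → A → Prop) (j : ℕ) : Submodule ℂ A := span ℂ {x | N j x}

/-- A graded ring of classes `N` over the rational numbers with an antilinear involution of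
its complexification which satisfies the Hodge-Riemann relations. -/
structure HRCore (n : ℕ) (tr : A →ₗ[ℂ] ℂ) (ξ : A) (N : ℕ → A → Prop) (c : A → A) : Prop where
  fin : Module.Finite ℂ A
  rat : ∀ j, RatSub ℂ (N j)
  one : N 0 1
  xi : N 1 ξ
  mul : ∀ {i j a b}, N i a → N j b → N (i + j) (a * b)
  comm : ∀ {i a}, N i a → ∀ b, a * b = b * a
  trq : ∀ {a}, N n a → ∃ q : ℚ, tr a = q
  van : ∀ {j a}, n < j → N j a → a = 0
  lef : ∀ j, 2 * (j + 1) ≤ n → ∀ a ∈ DD N (j + 1), ∃ b ∈ DD N j,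
    ξ ^ (n - 2 * (j + 1) + 1) * (a - ξ * b) = 0
  cadd : ∀ a b, c (a + b) = c a + c b
  csmul : ∀ (s : ℂ) a, c (s • a) = conj s • c a
  cmul : ∀ a b, c (a * b) = c a * c b
  cxi : c ξ = ξ
  cmem : ∀ {j a}, a ∈ DD N j → c a ∈ DD N j
  cinv : ∀ {j a}, a ∈ DD N j → c (c a) = a
  ctr : ∀ {a}, a ∈ DD N n → tr (c a) = conj (tr a)
  pos : ∀ j, 2 * j ≤ n → ∀ a ∈ DD N j, ξ ^ (n - 2 * j + 1) * a = 0 → a ≠ 0 →
    0 < ((-1 : ℂ) ^ j * tr (a * c a * ξ ^ (n - 2 * j))).re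

/-- The same, together with positivity for rational classes of low degree, which generate. -/
structure HRData (n m : ℕ) (tr : A →ₗ[ℂ] ℂ) (ξ : A) (N : ℕ → A → Prop) (c : A → A) : Prop
    extends HRCore n tr ξ N c where
  gen : ∀ {j x}, m < j → N j x →
    x ∈ span ℂ {y | ∃ i a b, 1 ≤ i ∧ i ≤ m ∧ i ≤ j ∧ N i a ∧ N (j - i) b ∧ y = a * b}
  low : ∀ j ≤ m, 2 * j ≤ n → ∀ a, N j a → ξ ^ (n - 2 * j + 1) * a = 0 → a ≠ 0 →
    ∃ q : ℚ, 0 < q ∧ (-1 : ℂ) ^ j * tr (a * a * ξ ^ (n - 2 * j)) = q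

namespace HRCore

variable {n : ℕ} {tr : A →ₗ[ℂ] ℂ} {ξ : A} {N : ℕ → A → Prop} {c : A → A}
  (H : HRCore n tr ξ N c)

omit [Algebra ℂ A] in
lemma dd_ind [Algebra ℂ A] {j : ℕ} {p : A → Prop} (h0 : p 0) (hN : ∀ x, N j x → p x)
    (hadd : ∀ x y, x ∈ DD N j → y ∈ DD N j → p x → p y → p (x + y))
    (hsmul : ∀ (s : ℂ) x, x ∈ DD N j → p x → p (s • x)) {x : A} (hx : x ∈ DD N j) : p x := by
  refine span_induction (p := fun x _ => p x) (fun x hx => hN x hx) h0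
    (fun x y hx hy h1 h2 => hadd x y hx hy h1 h2) (fun s x hx h1 => hsmul s x hx h1) hx

lemma sub_dd {j : ℕ} {x : A} (hx : N j x) : x ∈ DD N j := subset_span hx

include H

lemma dd_mul {i j : ℕ} {x y : A} (hx : x ∈ DD N i) (hy : y ∈ DD N j) :
    x * y ∈ DD N (i + j) := by
  refine dd_ind (p := fun x => x * y ∈ DD N (i + j)) ?_ ?_ ?_ ?_ hx
  · rw [zero_mul]; exact zero_mem _
  · intro x hx
    refine dd_ind (p := fun y => x * y ∈ DD N (i + j)) ?_ ?_ ?_ ?_ hy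
    · rw [mul_zero]; exact zero_mem _
    · intro y hy; exact sub_dd (H.mul hx hy)
    · intro y y' _ _ h1 h2; rw [mul_add]; exact add_mem h1 h2
    · intro s y _ h1; rw [mul_smul_comm]; exact smul_mem _ _ h1
  · intro x x' _ _ h1 h2; rw [add_mul]; exact add_mem h1 h2
  · intro s x _ h1; rw [smul_mul_assoc]; exact smul_mem _ _ h1

lemma dd_comm {i : ℕ} {x : A} (hx : x ∈ DD N i) (y : A) : x * y = y * x := by
  refine dd_ind (p := fun x => x * y = y * x) ?_ ?_ ?_ ?_ hx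
  · rw [zero_mul, mul_zero]
  · intro x hx; exact H.comm hx y
  · intro x x' _ _ h1 h2; rw [add_mul, mul_add, h1, h2]
  · intro s x _ h1; rw [smul_mul_assoc, mul_smul_comm, h1]

lemma xi_comm (y : A) : ξ * y = y * ξ := H.comm H.xi y

lemma xipow_comm (r : ℕ) (y : A) : ξ ^ r * y = y * ξ ^ r :=
  ((show Commute ξ y from H.xi_comm y).pow_left r).eq

lemma npow (r : ℕ) : N r (ξ ^ r) := by
  induction r with
  | zero => rw [pow_zero]; exact H.one
  | succ r ih => rw [pow_succ]; exact H.mul ih H.xi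

lemma ntop {j : ℕ} (hj : 2 * j ≤ n) {x y : A} (hx : N j x) (hy : N j y) :
    N n (x * y * ξ ^ (n - 2 * j)) := by
  have := H.mul (H.mul hx hy) (H.npow (n - 2 * j))
  rwa [show j + j + (n - 2 * j) = n by omega] at this

lemma dtop {j : ℕ} (hj : 2 * j ≤ n) {x y : A} (hx : x ∈ DD N j) (hy : y ∈ DD N j) :
    x * y * ξ ^ (n - 2 * j) ∈ DD N n := by
  have := H.dd_mul (H.dd_mul hx hy) (sub_dd (H.npow (n - 2 * j)))
  rwa [show j + j + (n - 2 * j) = n by omega] at this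

lemma cc0 : c 0 = 0 := by
  have := H.csmul 0 0
  simpa using this

lemma csub (a b : A) : c (a - b) = c a - c b := by
  have h1 : c (a - b) + c b = c a := by rw [← H.cadd, sub_add_cancel]
  rw [← h1, add_sub_cancel_right]

lemma c1 : c 1 = 1 := by
  have h1 : (1 : A) ∈ DD N 0 := sub_dd H.one
  have h2 := H.cmul 1 (c 1)
  rw [one_mul, H.cinv h1, mul_one] at h2
  exact h2.symm

lemma cpow (r : ℕ) : c (ξ ^ r) = ξ ^ r := by
  induction r with
  | zero => rw [pow_zero]; exact H.c1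
  | succ r ih => rw [pow_succ, H.cmul, ih, H.cxi]

lemma c_inj {j : ℕ} {a : A} (ha : a ∈ DD N j) (h : c a = 0) : a = 0 := by
  rw [← H.cinv ha, h, H.cc0]

end HRCore

/-- The primitive classes in the complex span. -/
def VV (n : ℕ) (ξ : A) (N : ℕ → A → Prop) (j : ℕ) : Submodule ℂ A :=
  DD N j ⊓ LinearMap.ker (LinearMap.mulLeft ℂ (ξ ^ (n - 2 * j + 1)))

lemma mem_VV {n : ℕ} {ξ : A} {N : ℕ → A → Prop} {j : ℕ} {x : A} :
    x ∈ VV n ξ N j ↔ x ∈ DD N j ∧ ξ ^ (n - 2 * j + 1) * x = 0 := Iff.rfl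

namespace HRCore

variable {n : ℕ} {tr : A →ₗ[ℂ] ℂ} {ξ : A} {N : ℕ → A → Prop} {c : A → A}
  (H : HRCore n tr ξ N c)

include H

lemma c_prim {j : ℕ} {x : A} (hx : x ∈ VV n ξ N j) : c x ∈ VV n ξ N j := by
  refine ⟨H.cmem hx.1, ?_⟩
  change ξ ^ (n - 2 * j + 1) * c x = 0
  rw [← H.cpow, ← H.cmul]
  have : ξ ^ (n - 2 * j + 1) * x = 0 := hx.2
  rw [this, H.cc0]

/-- The Lefschetz decomposition. -/
lemma dec {j : ℕ} (hj : 2 * (j + 1) ≤ n) {a : A} (ha : a ∈ DD N (j + 1)) :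
    ∃ a₀ ∈ VV n ξ N (j + 1), ∃ b ∈ DD N j, a = a₀ + ξ * b := by
  obtain ⟨b, hb, h⟩ := H.lef j hj a ha
  refine ⟨a - ξ * b, ⟨?_, h⟩, b, hb, by abel⟩
  apply sub_mem ha
  have := H.dd_mul (sub_dd H.xi) hb
  rwa [add_comm] at this

lemma dec0 {a : A} (ha : a ∈ DD N 0) : a ∈ VV n ξ N 0 := by
  refine ⟨ha, ?_⟩
  change ξ ^ (n - 2 * 0 + 1) * a = 0
  refine dd_ind (p := fun a => ξ ^ (n - 2 * 0 + 1) * a = 0) ?_ ?_ ?_ ?_ ha
  · rw [mul_zero]
  · intro x hx
    exact H.van (j := n - 2 * 0 + 1 + 0) (by omega) (H.mul (H.npow _) hx)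
  · intro x y _ _ h1 h2; rw [mul_add, h1, h2, add_zero]
  · intro s x _ h1; rw [mul_smul_comm, h1, smul_zero]

/-- A primitive class is orthogonal to the multiples of `ξ`. -/
lemma prim_orth {j : ℕ} {x : A} (hx : x ∈ VV n ξ N j) (w : A) :
    tr (x * (ξ * w) * ξ ^ (n - 2 * j)) = 0 := by
  have h1 : ξ ^ (n - 2 * j + 1) * x = 0 := hx.2
  have h2 : x * (ξ * w) * ξ ^ (n - 2 * j) = ξ ^ (n - 2 * j + 1) * x * w := by
    rw [mul_assoc x, mul_assoc ξ w, ← H.xipow_comm, ← mul_assoc ξ, ← pow_succ', ← mul_assoc,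
      ← H.xipow_comm]
  rw [h2, h1, zero_mul, map_zero]

lemma shift {j : ℕ} (hj : 2 * (j + 1) ≤ n) (b w : A) :
    ξ * b * (ξ * w) * ξ ^ (n - 2 * (j + 1)) = b * w * ξ ^ (n - 2 * j) := by
  have h1 : n - 2 * j = (n - 2 * (j + 1)) + 1 + 1 := by omega
  rw [h1, pow_succ, pow_succ]
  calc ξ * b * (ξ * w) * ξ ^ (n - 2 * (j + 1))
      = b * (ξ * ξ) * w * ξ ^ (n - 2 * (j + 1)) := by
        rw [H.xi_comm b]; simp only [mul_assoc]
    _ = b * w * (ξ * ξ) * ξ ^ (n - 2 * (j + 1)) := by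
        congr 1
        rw [mul_assoc b, mul_assoc b]
        congr 1
        have := H.xipow_comm 2 w
        rwa [pow_two] at this
    _ = _ := by
        rw [mul_assoc (b * w)]
        congr 1
        rw [← pow_two, ← pow_add, ← pow_succ, ← pow_succ]
        congr 1
        omega

/-- The form `tr (x y ξ ^ (n - 2 j))` is nondegenerate on the complex span of `N j`. -/
lemma nd' {j : ℕ} (hj : 2 * j ≤ n) {x : A} (hx : x ∈ DD N j)
    (h : ∀ y ∈ DD N j, tr (x * y * ξ ^ (n - 2 * j)) = 0) : x = 0 := by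
  induction j generalizing x with
  | zero =>
    by_contra h0
    have h1 := H.pos 0 (by omega) x hx (H.dec0 hx).2 h0
    rw [h _ (H.cmem hx), mul_zero] at h1
    simp at h1
  | succ j ih =>
    obtain ⟨x₀, hx₀, b, hb, rfl⟩ := H.dec hj hx
    have h0 : x₀ = 0 := by
      by_contra h0
      have h1 := H.pos (j + 1) hj x₀ hx₀.1 hx₀.2 h0
      have h2 := h _ (H.cmem hx₀.1)
      have h3 : tr (ξ * b * c x₀ * ξ ^ (n - 2 * (j + 1))) = 0 := by
        have h4 : ξ * b * c x₀ = c x₀ * (ξ * b) := (H.dd_comm (H.cmem hx₀.1) _).symm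
        rw [h4]
        exact H.prim_orth (H.c_prim hx₀) b
      rw [add_mul, add_mul, map_add, h3, add_zero] at h2
      rw [h2, mul_zero] at h1
      simp at h1
    subst h0
    rw [zero_add] at h ⊢
    have hb0 : b = 0 := by
      apply ih (by omega) hb
      intro y hy
      have h1 := h (ξ * y) (by
        have := H.dd_mul (sub_dd H.xi) hy
        rwa [add_comm] at this)
      rwa [H.shift hj] at h1
    rw [hb0, mul_zero]

lemma nd {j : ℕ} (hj : 2 * j ≤ n) {x : A} (hx : x ∈ DD N j)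
    (h : ∀ y, N j y → tr (x * y * ξ ^ (n - 2 * j)) = 0) : x = 0 := by
  apply H.nd' hj hx
  intro y hy
  refine dd_ind (p := fun y => tr (x * y * ξ ^ (n - 2 * j)) = 0) ?_ ?_ ?_ ?_ hy
  · rw [mul_zero, zero_mul, map_zero]
  · exact h
  · intro y y' _ _ h1 h2; rw [mul_add, add_mul, map_add, h1, h2, add_zero]
  · intro s y _ h1; rw [mul_smul_comm, smul_mul_assoc, map_smul, h1, smul_zero]

end HRCore

end Pool.Agent.Y103
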