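import Pool.Agent.Y103.RelDefs
import Pool.Agent.Y103.HRWeil
import Pool.Agent.H281R3.HT.Frm

/-!
# The standard conjecture of Hodge type for rings generated by pull-backs
-/

open CategoryTheory AlgebraicGeometry ComplexConjugate Submodule

universe u v w

namespace Pool.Agent.Y103

open Pool.Agent.H914 Pool.Agent.H914.VarClass Pool.Agent.H914.VarClass.Obj
  Pool.Agent.H914.WeilCohomology Pool.Agent.H281R3.HT Pool.Agent.W552

variable {k : Type u} [Field k] {𝒱 : VarClass k} {ops : CycleOps 𝒱}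
  {W : WeilCohomology.{u, v} ops}

section Single

variable {X : 𝒱.Obj} {D : X.Cycles} {ι : W.K ≃+* ℂ} {c : W.H X → W.H X}

lemma ringOf_alg (hD : X.IsCyc 1 D) : RingOf W X D (fun j a => a ∈ algClasses W X j) where
  rat _ :=
    { zero := alg_zero _
      add := fun h1 h2 => alg_add h1 h2
      smul := fun q _ hx => alg_smul q hx }
  one := alg_one
  xi := ⟨D, hD, rfl⟩
  mul h1 h2 := alg_mul h1 h2
  alg h := h

/-- The Lefschetz decomposition of algebraic classes. -/
lemma lef_alg (hA : LefschetzA W X D) (hD : X.IsCyc 1 D) (j : ℕ) (hj : 2 * (j + 1) ≤ X.dim)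
    (a : W.H X) (ha : a ∈ span W.K {y | y ∈ algClasses W X (j + 1)}) :
    ∃ b ∈ span W.K {y | y ∈ algClasses W X j},
      W.cl X D ^ (X.dim - 2 * (j + 1) + 1) * (a - W.cl X D * b) = 0 := by
  induction ha using span_induction with
  | mem a ha =>
    have h1 : W.cl X D ^ (X.dim - 2 * (j + 1) + 1) * a ∈ algClasses W X (X.dim - j) := by
      have := alg_mul (pow_alg (W := W) hD (X.dim - 2 * (j + 1) + 1)) ha
      rwa [show X.dim - 2 * (j + 1) + 1 + (j + 1) = X.dim - j by omega] at this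
    obtain ⟨z, hz, hz2⟩ := h1
    obtain ⟨z', hz', h2⟩ := hA j (by omega) z hz
    refine ⟨W.cl X z', subset_span ⟨z', hz', rfl⟩, ?_⟩
    rw [hz2, cl_divPow, mulLeft_pow_apply'] at h2
    rw [mul_sub, ← h2, ← mul_assoc, ← pow_succ,
      show X.dim - 2 * (j + 1) + 1 + 1 = X.dim - 2 * j by omega, sub_self]
  | zero => exact ⟨0, zero_mem _, by simp⟩
  | add a a' _ _ h1 h2 =>
    obtain ⟨b, hb, h1⟩ := h1
    obtain ⟨b', hb', h2⟩ := h2
    refine ⟨b + b', add_mem hb hb', ?_⟩
    have : a + a' - W.cl X D * (b + b') = (a - W.cl X D * b) + (a' - W.cl X D * b') := by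
      rw [mul_add]; abel
    rw [this, mul_add, h1, h2, add_zero]
  | smul s a _ h1 =>
    obtain ⟨b, hb, h1⟩ := h1
    refine ⟨s • b, smul_mem _ _ hb, ?_⟩
    rw [mul_smul_comm, ← smul_sub, mul_smul_comm, h1, smul_zero]

/-- The abstract data of a variety which satisfies the standard conjecture. -/
theorem hrData_alg (h : HodgeStable W X D ι c) :
    letI := algC (A := W.H X) ι
    HRData X.dim X.dim (trC ι (W.tr X)) (W.cl X D) (fun j a => a ∈ algClasses W X j) c := by
  let _ := algC (A := W.H X) ι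
  refine { hrCore h.div h.hr (ringOf_alg h.div) ?_ (lef_alg h.lefA h.div) with
    gen := ?_, low := ?_ }
  · intro j a ha
    induction ha using span_induction with
    | mem a ha => exact h.stable j a ha
    | zero => rw [IsHodgeRiemann.zero h.hr]; exact zero_mem _
    | add a b _ _ h1 h2 => rw [h.hr.add]; exact add_mem h1 h2
    | smul s a _ h1 => rw [h.hr.smul]; exact smul_mem _ _ h1
  · intro j x hj hx
    have h1 := alg_gr hx
    rw [W.gr_eq_bot X (2 * j) (by omega)] at h1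
    rw [(mem_bot _).1 h1]
    exact zero_mem _
  · intro j _ hj a ha h1 h2
    obtain ⟨z, hz, rfl⟩ := ha
    exact low_of_hodge h.div hj hz (h.hodge j hj z hz (by
      rw [cl_divPow, mulLeft_pow_apply']
      exact h1) h2)

end Single

variable {I : Type w} {X : I → 𝒱.Obj} {D : ∀ i, (X i).Cycles} {ι : W.K ≃+* ℂ}
  {c : ∀ i, W.H (X i) → W.H (X i)} {Y : 𝒱.Obj} {E : Y.Cycles} {cY : W.H Y → W.H Y}
  {φ : ∀ i, Y ⟶ X i}

lemma pullGens_alg (hE : Y.IsCyc 1 E) (j : ℕ) : pullGens W E X φ j ⊆ algClasses W Y j := by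
  rintro x (⟨rfl, rfl⟩ | ⟨i, a, ha, rfl⟩)
  · exact ⟨E, hE, rfl⟩
  · exact alg_map (φ i) ha

lemma map_span_mem {j : ℕ} (h1 : 1 ≤ j) (h2 : j ≤ Y.dim) (i : I) {x : W.H (X i)}
    (hx : x ∈ span W.K (algClasses W (X i) j)) :
    W.map (φ i) x ∈ genRing W.K (pullGens W E X φ) Y.dim j := by
  induction hx using span_induction with
  | mem x hx =>
    apply subset_span
    have := IsMonomial.mul (R := pullGens W E X φ) h1 h2 (Or.inr ⟨i, x, hx, rfl⟩)
      IsMonomial.one
    rwa [mul_one, add_zero] at this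
  | zero => rw [map_zero]; exact zero_mem _
  | add x y _ _ h1 h2 => rw [map_add]; exact add_mem h1 h2
  | smul s x _ h1 => rw [map_smul]; exact smul_mem _ _ h1

lemma pull_stable (hX : ∀ i, HodgeStable W (X i) (D i) ι (c i)) (hY : HodgeRiemann W Y E ι cY)
    (hφ : ∀ i, Compat W (φ i) (c i) cY) :
    RingStable W.K (pullGens W E X φ) Y.dim cY := by
  rintro j h1 h2 x (⟨rfl, rfl⟩ | ⟨i, a, ha, rfl⟩)
  · rw [hY.polar]
    apply subset_span
    have := IsMonomial.mul (R := pullGens W E X φ) h1 h2 (Or.inl ⟨rfl, rfl⟩) IsMonomial.one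
    rwa [mul_one, add_zero] at this
  · rw [hφ i j a (alg_gr ha)]
    exact map_span_mem h1 h2 i ((hX i).stable j a ha)

/-- The data of the abstract theorem for `Y`. -/
theorem hrCore_pull (hX : ∀ i, HodgeStable W (X i) (D i) ι (c i)) (hE : Y.IsCyc 1 E)
    (hY1 : 1 ≤ Y.dim) (hY : HodgeRiemann W Y E ι cY) (hφ : ∀ i, Compat W (φ i) (c i) cY)
    (hL : LefschetzStable W.K (pullGens W E X φ) Y.dim Y.dim (W.cl Y E)) :
    letI := algC (A := W.H Y) ι
    HRCore Y.dim (trC ι (W.tr Y)) (W.cl Y E) (RatMon W.K (pullGens W E X φ) Y.dim) cY :=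
  hrCore_gen hE hY hY1 (pullGens_alg hE) (Or.inl ⟨rfl, rfl⟩) (pull_stable hX hY hφ) hL

lemma gen_mon {j : ℕ} (h1 : 1 ≤ j) (h2 : j ≤ Y.dim) {x : W.H Y} (hx : x ∈ pullGens W E X φ j) :
    RatMon W.K (pullGens W E X φ) Y.dim j x := by
  apply RatMon.mon
  have := IsMonomial.mul (R := pullGens W E X φ) h1 h2 hx IsMonomial.one
  rwa [mul_one, add_zero] at this

/-- The complex conjugations are compatible with the pull-backs. -/
lemma map_cc (hX : ∀ i, HodgeStable W (X i) (D i) ι (c i)) (hE : Y.IsCyc 1 E)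
    (hY1 : 1 ≤ Y.dim) (hY : HodgeRiemann W Y E ι cY) (hφ : ∀ i, Compat W (φ i) (c i) cY)
    (hL : LefschetzStable W.K (pullGens W E X φ) Y.dim Y.dim (W.cl Y E)) (i : I) {j : ℕ}
    (h1 : 1 ≤ j) (h2 : 2 * j ≤ Y.dim) (h3 : 2 * j ≤ (X i).dim) {x : W.H (X i)}
    (hx : x ∈ span W.K (algClasses W (X i) j)) :
    letI := algC (A := W.H Y) ι
    letI := algC (A := W.H (X i)) ι
    cc Y.dim (trC ι (W.tr Y)) (W.cl Y E) (RatMon W.K (pullGens W E X φ) Y.dim) j
      (W.map (φ i) x) = W.map (φ i) (cc (X i).dim (trC ι (W.tr (X i))) (W.cl (X i) (D i))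
        (fun j a => a ∈ algClasses W (X i) j) j x) := by
  let _ := algC (A := W.H Y) ι
  let _ := algC (A := W.H (X i)) ι
  have HY := hrCore_pull hX hE hY1 hY hφ hL
  have HX := (hrData_alg (hX i)).toHRCore
  have hDDX : ∀ x, x ∈ DD (fun j a => a ∈ algClasses W (X i) j) j ↔
      x ∈ span W.K (algClasses W (X i) j) := fun x => mem_spanC ι _ x
  have hDDY : ∀ x, x ∈ DD (RatMon W.K (pullGens W E X φ) Y.dim) j ↔
      x ∈ genRing W.K (pullGens W E X φ) Y.dim j := by
    intro x
    rw [DD, mem_spanC, span_ratMon]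
  have hmem : ∀ x ∈ span W.K (algClasses W (X i) j),
      W.map (φ i) x ∈ DD (RatMon W.K (pullGens W E X φ) Y.dim) j := fun x hx =>
    (hDDY _).2 (map_span_mem h1 (by omega) i hx)
  induction hx using span_induction with
  | mem x hx =>
    rw [HY.cc_N h2 (gen_mon h1 (by omega) (Or.inr ⟨i, x, hx, rfl⟩)), HX.cc_N h3 hx]
  | zero => rw [map_zero, HY.cc_zero h2, HX.cc_zero h3, map_zero]
  | add x y hx hy h4 h5 =>
    rw [map_add, HY.cc_add h2 (hmem x hx) (hmem y hy), h4, h5,
      HX.cc_add h3 ((hDDX x).2 hx) ((hDDX y).2 hy), map_add]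
  | smul s x hx h4 =>
    have e1 : s • W.map (φ i) x = (ι s) • W.map (φ i) x := by
      rw [smul_algC, ι.symm_apply_apply]
    have e2 : s • x = (ι s) • x := by rw [smul_algC, ι.symm_apply_apply]
    rw [map_smul, e1, HY.cc_smul h2 _ (hmem x hx), h4, e2, HX.cc_smul h3 _ ((hDDX x).2 hx),
      smul_algC, smul_algC, map_smul]

/-- Pull-backs of algebraic classes of low degree are spanned by eigenvectors. -/
lemma pull_ee_low (hX : ∀ i, HodgeStable W (X i) (D i) ι (c i)) (hE : Y.IsCyc 1 E)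
    (hY1 : 1 ≤ Y.dim) (hY : HodgeRiemann W Y E ι cY) (hφ : ∀ i, Compat W (φ i) (c i) cY)
    (hL : LefschetzStable W.K (pullGens W E X φ) Y.dim Y.dim (W.cl Y E)) (i : I) {j : ℕ}
    (h1 : 1 ≤ j) (h2 : 2 * j ≤ Y.dim) (h3 : 2 * j ≤ (X i).dim) {a : W.H (X i)}
    (ha : a ∈ algClasses W (X i) j) :
    letI := algC (A := W.H Y) ι
    W.map (φ i) a ∈ span ℂ {v | HRCore.EE Y.dim (trC ι (W.tr Y)) (W.cl Y E)
      (RatMon W.K (pullGens W E X φ) Y.dim) cY j v} := by
  let _ := algC (A := W.H Y) ι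
  let _ := algC (A := W.H (X i)) ι
  have HX := hrData_alg (hX i)
  have hDDX : ∀ x, x ∈ DD (fun j a => a ∈ algClasses W (X i) j) j ↔
      x ∈ span W.K (algClasses W (X i) j) := fun x => mem_spanC ι _ x
  have hDDY : ∀ x, x ∈ DD (RatMon W.K (pullGens W E X φ) Y.dim) j ↔
      x ∈ genRing W.K (pullGens W E X φ) Y.dim j := by
    intro x
    rw [DD, mem_spanC, span_ratMon]
  have h4 := HX.dd_ee j h3 a (HRCore.sub_dd ha)
  clear ha
  induction h4 using span_induction with
  | mem v hv =>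
    obtain ⟨hv, μ, hμ, h5⟩ := hv
    apply subset_span
    have hv' := (hDDX v).1 hv
    refine ⟨(hDDY _).2 (map_span_mem h1 (by omega) i hv'), μ, hμ, ?_⟩
    have h6 : v ∈ W.gr (X i) (2 * j) := (ringOf_alg (hX i).div).gr hv'
    have h7 : c i v ∈ span W.K (algClasses W (X i) j) := (hDDX _).1 (HX.cmem hv)
    rw [hφ i j v h6, map_cc hX hE hY1 hY hφ hL i h1 h2 h3 h7, h5, smul_algC, map_smul]
    rfl
  | zero => rw [map_zero]; exact zero_mem _
  | add x y _ _ h1 h2 => rw [map_add]; exact add_mem h1 h2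
  | smul s x _ h1 =>
    rw [smul_algC, map_smul]
    exact smul_mem _ s h1

/-- All generators are spanned by eigenvectors. -/
lemma pull_ee (hX : ∀ i, HodgeStable W (X i) (D i) ι (c i)) (hE : Y.IsCyc 1 E)
    (hY1 : 1 ≤ Y.dim) (hY : HodgeRiemann W Y E ι cY) (hφ : ∀ i, Compat W (φ i) (c i) cY)
    (hL : LefschetzStable W.K (pullGens W E X φ) Y.dim Y.dim (W.cl Y E)) (i : I) {j : ℕ}
    (h1 : 1 ≤ j) (h2 : 2 * j ≤ Y.dim) {a : W.H (X i)} (ha : a ∈ algClasses W (X i) j) :
    letI := algC (A := W.H Y) ι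
    W.map (φ i) a ∈ span ℂ {v | HRCore.EE Y.dim (trC ι (W.tr Y)) (W.cl Y E)
      (RatMon W.K (pullGens W E X φ) Y.dim) cY j v} := by
  let _ := algC (A := W.H Y) ι
  by_cases h3 : 2 * j ≤ (X i).dim
  · exact pull_ee_low hX hE hY1 hY hφ hL i h1 h2 h3 ha
  · have HY := hrCore_pull hX hE hY1 hY hφ hL
    by_cases h4 : j ≤ (X i).dim
    · -- the class of the divisor
      have hξ : HRCore.EE Y.dim (trC ι (W.tr Y)) (W.cl Y E)
          (RatMon W.K (pullGens W E X φ) Y.dim) cY 1 (W.map (φ i) (W.cl (X i) (D i))) := by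
        have hξ1 : W.cl (X i) (D i) ∈ algClasses W (X i) 1 := ⟨D i, (hX i).div, rfl⟩
        have h5 := gen_mon (E := E) (φ := φ) (X := X) (j := 1) le_rfl (by omega)
          (Or.inr ⟨i, _, hξ1, rfl⟩)
        refine ⟨HRCore.sub_dd h5, 1, one_pos, ?_⟩
        rw [hφ i 1 _ (alg_gr hξ1), (hX i).hr.polar, HY.cc_N (by omega) h5,
          Complex.ofReal_one, one_smul]
      have hpow : ∀ r, 1 ≤ r → 2 * r ≤ Y.dim → HRCore.EE Y.dim (trC ι (W.tr Y)) (W.cl Y E)
          (RatMon W.K (pullGens W E X φ) Y.dim) cY r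
          (W.map (φ i) (W.cl (X i) (D i)) ^ r) := by
        intro r hr
        induction r, hr using Nat.le_induction with
        | base => intro _; rw [pow_one]; exact hξ
        | succ r hr ih =>
          intro h6
          rw [pow_succ]
          exact HY.ee_mul (by omega) (ih (by omega)) hξ
      obtain ⟨z, hz, rfl⟩ := ha
      obtain ⟨z', hz', h5⟩ := (hX i).lefA ((X i).dim - j) (by omega) z (by
        rwa [show (X i).dim - ((X i).dim - j) = j by omega])
      rw [cl_divPow, mulLeft_pow_apply'] at h5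
      rw [← h5, map_mul, map_pow]
      set r := (X i).dim - 2 * ((X i).dim - j) with hr
      by_cases h6 : j = (X i).dim
      · -- the class of a point
        have h7 : W.cl (X i) z' ∈ W.gr (X i) 0 := by
          have := W.cl_mem hz'
          rwa [h6, Nat.sub_self, mul_zero] at this
        rw [W.gr_zero, mem_span_singleton] at h7
        obtain ⟨s, hs⟩ := h7
        rw [← hs, map_smul, map_one, mul_smul_comm, mul_one]
        have h8 : s • W.map (φ i) (W.cl (X i) (D i)) ^ r =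
            (ι s) • W.map (φ i) (W.cl (X i) (D i)) ^ r := by
          rw [smul_algC, ι.symm_apply_apply]
        rw [h8]
        have h9 : r = j := by omega
        rw [h9]
        exact smul_mem _ _ (subset_span (hpow j h1 h2))
      · have h7 := pull_ee_low hX hE hY1 hY hφ hL i (j := (X i).dim - j) (by omega) (by omega)
          (by omega) (a := W.cl (X i) z') ⟨z', hz', rfl⟩
        have h8 := HY.span_mul_mem (i := r) (j := (X i).dim - j) (by omega)
          (subset_span (hpow r (by omega) (by omega))) h7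
        rwa [show r + ((X i).dim - j) = j by omega] at h8
    · have h5 := alg_gr ha
      rw [W.gr_eq_bot (X i) (2 * j) (by omega)] at h5
      rw [(mem_bot _).1 h5, map_zero]
      exact zero_mem _

/-- **The standard conjectures of Hodge type and `D` for rings generated by pull-backs of
algebraic classes.** -/
theorem hodge_pull (hX : ∀ i, HodgeStable W (X i) (D i) ι (c i)) (hE : Y.IsCyc 1 E)
    (hY : HodgeRiemann W Y E ι cY) (hφ : ∀ i, Compat W (φ i) (c i) cY)
    (hL : LefschetzStable W.K (pullGens W E X φ) Y.dim Y.dim (W.cl Y E)) (hY1 : 1 ≤ Y.dim) :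
    StdFor W Y E (InRing W.K (pullGens W E X φ) Y.dim (Y.dim / 2)) := by
  let _ := algC (A := W.H Y) ι
  have HY := hrCore_pull hX hE hY1 hY hφ hL
  have hone : HRCore.EE Y.dim (trC ι (W.tr Y)) (W.cl Y E)
      (RatMon W.K (pullGens W E X φ) Y.dim) cY 0 1 := by
    have h5 : RatMon W.K (pullGens W E X φ) Y.dim 0 1 := RatMon.mon IsMonomial.one
    refine ⟨HRCore.sub_dd h5, 1, one_pos, ?_⟩
    rw [HY.c1, HY.cc_N (by omega) h5, Complex.ofReal_one, one_smul]
  have hmon : ∀ j x, IsMonomial (pullGens W E X φ) Y.dim j x → 2 * j ≤ Y.dim →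
      x ∈ span ℂ {v | HRCore.EE Y.dim (trC ι (W.tr Y)) (W.cl Y E)
        (RatMon W.K (pullGens W E X φ) Y.dim) cY j v} := by
    intro j x hx
    induction hx with
    | one => intro _; exact subset_span hone
    | mul h1 h2 h3 _ ih =>
      intro h4
      refine HY.span_mul_mem h4 ?_ (ih (by omega))
      rcases h3 with ⟨rfl, rfl⟩ | ⟨i, a, ha, rfl⟩
      · exact subset_span (HY.ee_xi (by omega))
      · exact pull_ee hX hE hY1 hY hφ hL i h1 (by omega) ha
  have hrm : ∀ j x, RatMon W.K (pullGens W E X φ) Y.dim j x → 2 * j ≤ Y.dim →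
      x ∈ span ℂ {v | HRCore.EE Y.dim (trC ι (W.tr Y)) (W.cl Y E)
        (RatMon W.K (pullGens W E X φ) Y.dim) cY j v} := by
    intro j x hx hj
    induction hx with
    | zero => exact zero_mem _
    | mon h => exact hmon _ _ h hj
    | add _ _ h3 h4 => exact add_mem h3 h4
    | smul q _ h2 =>
      have := smul_mem (span ℂ {v | HRCore.EE Y.dim (trC ι (W.tr Y))
        (W.cl Y E) (RatMon W.K (pullGens W E X φ) Y.dim) cY j v}) (q : ℂ) h2
      rwa [smul_algC, map_ratCast] at this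
  have h1 := std_of_core hE (ringOf_ratMon hY1 (pullGens_alg hE) (Or.inl ⟨rfl, rfl⟩)) HY (by
    intro j hj x hx
    exact HRCore.dd_ind (p := fun x => x ∈ span ℂ {v | HRCore.EE Y.dim (trC ι (W.tr Y))
      (W.cl Y E) (RatMon W.K (pullGens W E X φ) Y.dim) cY j v}) (zero_mem _)
      (fun x hx => hrm j x hx hj)
      (fun x y _ _ h1 h2 => add_mem h1 h2) (fun s x _ h1 => smul_mem _ _ h1) hx)
  have h2 : (fun x => ∃ j ≤ Y.dim / 2, x ∈ span W.K
      {y | RatMon W.K (pullGens W E X φ) Y.dim j y}) =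
      InRing W.K (pullGens W E X φ) Y.dim (Y.dim / 2) := by
    funext x
    simp only [span_ratMon]
    rfl
  rwa [h2] at h1

end Pool.Agent.Y103
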