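import Pool.Agent.Y103.HRDefs

/-!
# Rings generated by pull-backs of algebraic classes: definitions
-/

open CategoryTheory AlgebraicGeometry

universe u v w

namespace Pool.Agent.Y103

open Pool.Agent.H914 Pool.Agent.H914.VarClass Pool.Agent.H914.VarClass.Obj
  Pool.Agent.H914.WeilCohomology Pool.Agent.W552

variable {k : Type u} [Field k] {𝒱 : VarClass k} {ops : CycleOps 𝒱}

/-- The generators of codimension `j`: the class of the divisor `E` on `Y` (for `j = 1`), and the
pull-backs under the morphisms `φ i : Y ⟶ X i` of the algebraic classes of codimension `j` on the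
varieties `X i`. -/
def pullGens (W : WeilCohomology.{u, v} ops) {Y : 𝒱.Obj} (E : Y.Cycles) {I : Type w}
    (X : I → 𝒱.Obj) (φ : ∀ i, Y ⟶ X i) (j : ℕ) : Set (W.H Y) :=
  {x | (j = 1 ∧ x = W.cl Y E) ∨ ∃ i, ∃ a ∈ algClasses W (X i) j, x = W.map (φ i) a}

/-- The variety `X` with the divisor `D` satisfies the Lefschetz standard conjecture `A` and the
standard conjecture of Hodge type, and `c` is a Hodge-Riemann involution for it which preserves
the spans of the algebraic classes. -/
structure HodgeStable (W : WeilCohomology.{u, v} ops) (X : 𝒱.Obj) (D : X.Cycles) (ι : W.K ≃+* ℂ)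
    (c : W.H X → W.H X) : Prop where
  div : X.IsCyc 1 D
  hr : HodgeRiemann W X D ι c
  stable : ∀ j, ∀ a ∈ algClasses W X j, c a ∈ Submodule.span W.K (algClasses W X j)
  lefA : LefschetzA W X D
  hodge : HodgeType W X D

/-- The maps `c` and `c'` of the cohomology are compatible with the pull-back along `φ`, in even
degrees. -/
def Compat (W : WeilCohomology.{u, v} ops) {X Y : 𝒱.Obj} (φ : Y ⟶ X) (c : W.H X → W.H X)
    (c' : W.H Y → W.H Y) : Prop :=
  ∀ j, ∀ a ∈ W.gr X (2 * j), c' (W.map φ a) = W.map φ (c a)

end Pool.Agent.Y103
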