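import Mathlib

/-!
# Self-adjoint operators for a positive definite Hermitian form
-/

open ComplexConjugate Module

namespace Pool.Agent.Y103

variable {V : Type*} [AddCommGroup V] [Module ℂ V]

/-- A positive definite Hermitian form, linear in the first variable. -/
structure PosHerm (h : V → V → ℂ) : Prop where
  add : ∀ x y z, h (x + y) z = h x z + h y z
  smul : ∀ (a : ℂ) x y, h (a • x) y = a * h x y
  symm : ∀ x y, h y x = conj (h x y)
  pos : ∀ x, x ≠ 0 → 0 < (h x x).re

namespace PosHerm

variable {h : V → V → ℂ} (H : PosHerm h)

include H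

lemma add' (x y z : V) : h x (y + z) = h x y + h x z := by
  rw [H.symm, H.add, map_add, ← H.symm, ← H.symm]

lemma smul' (a : ℂ) (x y : V) : h x (a • y) = conj a * h x y := by
  rw [H.symm, H.smul, map_mul, ← H.symm]

/-- The inner product space structure. -/
noncomputable def core : InnerProductSpace.Core ℂ V where
  inner x y := h y x
  conj_inner_symm x y := by rw [← H.symm]
  re_inner_nonneg x := by
    by_cases hx : x = 0
    · have : h x x = 0 := by
        have := H.smul 0 x x
        rw [zero_smul, zero_mul] at this
        rw [hx] at this ⊢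
        exact this
      simp [this]
    · exact (H.pos x hx).le
  add_left x y z := by rw [H.add']
  smul_left x y r := by rw [H.smul']
  definite x hx := by
    by_contra h0
    have h1 := H.pos x h0
    rw [hx] at h1
    simp at h1

/-- **The spectral theorem.** -/
theorem spec [FiniteDimensional ℂ V] (g : V →ₗ[ℂ] V) (hg : ∀ x y, h (g x) y = h x (g y)) :
    ∃ (b : Basis (Fin (finrank ℂ V)) ℂ V) (μ : Fin (finrank ℂ V) → ℝ),
      (∀ i, g (b i) = (μ i : ℂ) • b i) ∧ ∀ i j, h (b i) (b j) = if i = j then 1 else 0 := by
  letI : NormedAddCommGroup V := H.core.toNormedAddCommGroup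
  letI : InnerProductSpace ℂ V := InnerProductSpace.ofCore H.core.toCore
  have hsym : g.IsSymmetric := by
    intro x y
    change h y (g x) = h (g y) x
    rw [hg]
  refine ⟨(hsym.eigenvectorBasis rfl).toBasis, hsym.eigenvalues rfl, ?_, ?_⟩
  · intro i
    rw [OrthonormalBasis.coe_toBasis]
    exact hsym.apply_eigenvectorBasis rfl i
  · intro i j
    rw [OrthonormalBasis.coe_toBasis]
    have := (orthonormal_iff_ite.1 (hsym.eigenvectorBasis rfl).orthonormal) j i
    change h _ _ = _ at this
    rw [this]
    by_cases hij : i = j
    · subst hij; simp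
    · rw [if_neg hij, if_neg (Ne.symm hij)]

end PosHerm

end Pool.Agent.Y103
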